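import Pool.Agent.Helper27.RV.St

/-!
Project RV (MP_60edf5_lc), module KA.
-/

set_option autoImplicit false

open Cardinal Ordinal Set

universe u

namespace Pool.Agent.Helper86.RV

open Pool.Agent.Helper27.RV

theorem pKA (h1 : StCOD.{u}) (h2 : StDIR.{u}) : StKA.{u} := by
  intro K al m L T J c ctx hL hJ hlg hKT hT
  obtain ⟨S, hS⟩ := h1 K m L J c ctx.aleph0_le hlg
  have hT0 : ℵ₀ ≤ #T := ctx.aleph0_le.trans hKT
  have hord : (Order.succ #T).ord < m.ord := Cardinal.ord_lt_ord.2 hT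
  have hlt : ∀ a : (Order.succ #T).ord.ToType, (a.toOrd : Ordinal.{u}) < m.ord :=
    fun a => lt_trans a.toOrd.2 hord
  have hex : ∀ (a : (Order.succ #T).ord.ToType) (l : L), ∃ x < c l,
      ℵ₀ < (c l).cof → ∀ n, S (a.toOrd : Ordinal.{u}) l n < x := by
    intro a l
    by_cases hc : ℵ₀ < (c l).cof
    · obtain ⟨x, hx1, hx2⟩ := exists_bd_nat hc (fun n => S (a.toOrd : Ordinal.{u}) l n)
        (fun n => (hS _ (hlt a)).1 l n)
      exact ⟨x, hx1, fun _ => hx2⟩
    · exact ⟨S (a.toOrd : Ordinal.{u}) l 0, (hS _ (hlt a)).1 l 0, fun h => absurd h hc⟩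
  choose g hg1 hg2 using hex
  have hR : #((Order.succ #T).ord.ToType) = Order.succ #T := by
    rw [mk_toType, card_ord]
  obtain ⟨s, hs1, hs2⟩ := h2 K al m L _ J c g ctx hL hJ hlg (by rw [hR]; exact hT) hg1
  have hreg : (Order.succ #T).IsRegular := isRegular_succ hT0
  obtain ⟨N0, hN0⟩ := infinite_pigeonhole_card
    (fun a : (Order.succ #T).ord.ToType => {l | ℵ₀ < (c l).cof ∧ s l < g a l})
    (Order.succ #T) (by rw [hR]) (hT0.trans (Order.le_succ _)) (by
      rw [hreg.cof_ord]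
      exact ((ctx.mk_set hL).trans hKT).trans_lt (Order.lt_succ _))
  have hle := (Order.le_succ #T).trans hN0
  rw [Cardinal.le_def] at hle
  obtain ⟨ρ⟩ := hle
  have hρ : ∀ x, {l | ℵ₀ < (c l).cof ∧ s l < g (ρ x).1 l} = N0 := fun x => (ρ x).2
  refine ⟨fun x => S ((ρ x).1.toOrd : Ordinal.{u}), fun x => ((ρ x).1.toOrd : Ordinal.{u}),
    s, N0, ?_, ?_, ?_, hs1, ?_⟩
  · intro x y hxy
    apply ρ.injective
    apply Subtype.ext
    have h3 : (ρ x).1.toOrd = (ρ y).1.toOrd := Subtype.ext hxy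
    exact ToType.mk.symm.injective h3
  · intro a Q q B hQ hlt' hB
    exact (hS _ (hlt (ρ a).1)).2 Q (fun i => ((ρ (q i)).1.toOrd : Ordinal.{u})) B hQ hlt' hB
  · have hne : Nonempty T := by
      rw [← Cardinal.mk_ne_zero_iff]
      intro h0
      rw [h0] at hT0
      exact absurd hT0 (not_le.2 aleph0_pos)
    obtain ⟨x⟩ := hne
    rw [← hρ x]
    exact hs2 (ρ x).1
  · intro l hl hlN a n
    have h3 : ¬ (s l < g (ρ a).1 l) := by
      intro h4
      apply hlN
      rw [← hρ a]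
      exact ⟨hl, h4⟩
    exact lt_of_lt_of_le (hg2 (ρ a).1 l hl n) (not_lt.1 h3)

end Pool.Agent.Helper86.RV
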