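import Pool.Agent.Helper27.RV.St

/-!
Project RV (MP_60edf5_lc), module STA.
-/

set_option autoImplicit false

open Cardinal Ordinal Set

universe u

namespace Pool.Agent.Helper86.RV

open Pool.Agent.Helper27.RV

theorem mk_iUnion_le_of_le {Q ι : Type u} (I : Q → Set ι) (δ : Cardinal.{u}) (hδ : ℵ₀ ≤ δ)
    (hQ : #Q ≤ δ) (hI : ∀ q, #(I q) ≤ δ) : #(⋃ q, I q : Set ι) ≤ δ := by
  calc #(⋃ q, I q : Set ι) ≤ Cardinal.sum (fun q => #(I q)) := Cardinal.mk_iUnion_le_sum_mk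
    _ ≤ Cardinal.sum (fun _ : Q => δ) := Cardinal.sum_le_sum _ _ hI
    _ = #Q * δ := Cardinal.sum_const' _ _
    _ ≤ δ * δ := mul_le_mul' hQ le_rfl
    _ = δ := Cardinal.mul_eq_self hδ

theorem pSTA (h1 : StJOIN.{u}) : StSTA.{u} := by
  intro K β al δ m t ctx hβ hδ hcov
  by_contra hcon
  have hm0 : 0 < m := (zero_le.trans_lt ctx.lt)
  have hne : Nonempty β := by
    by_contra hemp
    rw [not_nonempty_iff] at hemp
    apply hcov
    refine ⟨PEmpty, by simpa using hm0, fun i => i.elim, fun y _ => ⟨∅, by simp, fun e => ?_⟩⟩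
    exact (hemp.false e).elim
  have hK : ℵ₀ ≤ #K := ctx.aleph0_le
  have hKne : Nonempty K := by
    rw [← Cardinal.mk_ne_zero_iff]
    intro h0
    rw [h0] at hK
    exact absurd hK (not_le.2 aleph0_pos)
  have hQ : #{J : Set (Set β) // IsIdl J ∧ Set.univ ∉ J} < m :=
    ((Cardinal.mk_subtype_le _).trans (ctx.mk_set_set hβ)).trans_lt ctx.lt
  obtain ⟨ι, hι, E, hE⟩ := h1 K m β {J : Set (Set β) // IsIdl J ∧ Set.univ ∉ J} (fun q => q.1)
    (fun _ _ => t) (fun _ => Set.univ) ctx.reg hQ (by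
      rintro ⟨J, hJ1, hJ2⟩ hlg
      exact hcon ⟨J, hJ1, hJ2, hlg⟩)
  have hw : ∃ w : K → β × K, Function.Surjective w := by
    have hle : #(β × K) ≤ #K := by
      rw [Cardinal.mk_prod, Cardinal.lift_id, Cardinal.lift_id]
      calc #β * #K ≤ #K * #K := mul_le_mul' (hβ.trans ctx.al_le) le_rfl
        _ = #K := Cardinal.mul_eq_self hK
    rw [Cardinal.le_def] at hle
    obtain ⟨g⟩ := hle
    exact ⟨Function.invFun g, Function.invFun_surjective g.injective⟩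
  obtain ⟨w, hw⟩ := hw
  have hy : ∃ y : β → Ordinal.{u}, (∀ e, y e < t) ∧ ∀ I : Set ι, #I ≤ δ →
      ∃ e, ∀ i ∈ I, ∀ k, y e ≠ E i (w k).1 (w k).2 := by
    by_contra hno
    apply hcov
    refine ⟨ι, hι, fun i k => E i (w k).1 (w k).2, fun y hy => ?_⟩
    by_contra hno2
    apply hno
    refine ⟨y, hy, fun I hI => ?_⟩
    by_contra hno3
    apply hno2
    refine ⟨I, hI, fun e => ?_⟩
    by_contra hno4
    apply hno3
    refine ⟨e, fun i hi k hk => hno4 ⟨i, hi, k, hk⟩⟩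
  obtain ⟨y, hy1, hy2⟩ := hy
  have hδ0 : ℵ₀ ≤ δ := (aleph0_le_aleph 1).trans hδ
  have hJ : IsIdl {B : Set β | ∃ I : Set ι, #I ≤ δ ∧ ∀ e ∈ B, ∃ i ∈ I, ∃ k, y e = E i e k} := by
    refine ⟨?_, ?_⟩
    · rintro B C hBC ⟨I, hI, h⟩
      exact ⟨I, hI, fun e he => h e (hBC he)⟩
    · intro Q F hQ1 hF
      choose I hI1 hI2 using hF
      refine ⟨⋃ q, I q, mk_iUnion_le_of_le I δ hδ0 (hQ1.trans hδ) hI1, fun e he => ?_⟩
      obtain ⟨q, hq⟩ := mem_iUnion.1 he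
      obtain ⟨i, hi, k, hk⟩ := hI2 q e hq
      exact ⟨i, mem_iUnion.2 ⟨q, hi⟩, k, hk⟩
  have hu : Set.univ ∉ {B : Set β | ∃ I : Set ι, #I ≤ δ ∧ ∀ e ∈ B, ∃ i ∈ I, ∃ k, y e = E i e k} := by
    rintro ⟨I, hI, h⟩
    obtain ⟨e, he⟩ := hy2 I hI
    obtain ⟨i, hi, k, hk⟩ := h e trivial
    obtain ⟨k', hk'⟩ := hw (e, k)
    apply he i hi k'
    rw [hk']
    exact hk
  obtain ⟨B, -, ⟨I, hI, hB1⟩, hB2⟩ := hE ⟨_, hJ, hu⟩ (fun e _ => y e) (fun l _ _ => hy1 l)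
  apply hB2
  exact ⟨I, hI.trans hδ, fun e he => hB1 e he 0⟩

end Pool.Agent.Helper86.RV
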