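import Pool.Agent.Helper27.RV.St

/-!
Project RV (MP_60edf5_lc), module TERM.
-/

set_option autoImplicit false

open Cardinal Ordinal Set

universe u

namespace Pool.Agent.Helper86.RV

open Pool.Agent.Helper27.RV

theorem mk_le_of_countable_fibres {L L' : Type u} (p : L' → L) (al : Cardinal.{u})
    (hal : ℵ₀ ≤ al) (hL : #L ≤ al) (hp : ∀ l, (p ⁻¹' {l}).Countable) : #L' ≤ al := by
  have e : #L' = #(Σ l : L, {y : L' // p y = l}) := Cardinal.mk_congr (Equiv.sigmaFiberEquiv p).symm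
  rw [e, mk_sigma]
  calc Cardinal.sum (fun l : L => #{y : L' // p y = l}) ≤ Cardinal.sum (fun _ : L => ℵ₀) := by
        refine Cardinal.sum_le_sum _ _ fun l => ?_
        have h1 := hp l
        rw [← Cardinal.le_aleph0_iff_set_countable] at h1
        exact h1
    _ = #L * ℵ₀ := by rw [Cardinal.sum_const']
    _ ≤ al * al := mul_le_mul' hL hal
    _ = al := Cardinal.mul_eq_self hal

/-- the good triples -/
def Good (K : Type u) (al m : Cardinal.{u}) (M : Ordinal.{u})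
    (x : Σ L : Type u, Set (Set L) × (L → Ordinal.{u})) : Prop :=
  IsIdl x.2.1 ∧ Set.univ ∉ x.2.1 ∧ #x.1 ≤ al ∧ Large K m x.2.1 x.2.2 univ ∧ ∀ l, x.2.2 l < M

theorem pTERM (h1 : StWF.{u}) : StTERM.{u} := by
  intro K al m M L0 J0 c0 hal hJ0 hu0 hL0 hlg0 hM0
  by_contra hcon
  have hsm : ∀ x : {x : Σ L : Type u, Set (Set L) × (L → Ordinal.{u}) // Good K al m M x},
      Small K m x.1.2.1 x.1.2.2 univ := by
    rintro ⟨⟨L, J, c⟩, ⟨g1, g2, g3, g4, g5⟩⟩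
    by_contra hns
    exact hcon ⟨L, J, c, g1, g2, g3, g4, g5, hns⟩
  have hstep : ∀ x : {x : Σ L : Type u, Set (Set L) × (L → Ordinal.{u}) // Good K al m M x},
      ∃ y : {x : Σ L : Type u, Set (Set L) × (L → Ordinal.{u}) // Good K al m M x},
      ∃ p : y.1.1 → x.1.1, (∀ l, (p ⁻¹' {l}).Countable) ∧
        (∀ X, p ⁻¹' X ∈ y.1.2.1 → X ∈ x.1.2.1) ∧ ∀ z, y.1.2.2 z < x.1.2.2 (p z) := by
    intro x
    obtain ⟨L', p, J', c', s1, -, s3, s4, s5, s6⟩ := hsm x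
    obtain ⟨⟨L, J, c⟩, ⟨g1, g2, g3, g4, g5⟩⟩ := x
    have hu : Set.univ ∉ J' := by
      intro h
      exact g2 (s4 univ (subset_univ _) (by rwa [preimage_univ]))
    refine ⟨⟨⟨L', J', c'⟩, ⟨s1, hu, mk_le_of_countable_fibres p al hal g3 s3, s6,
      fun l => lt_trans (s5 l) (g5 (p l))⟩⟩, p, s3, fun X => s4 X (subset_univ _), s5⟩
  choose f p hp1 hp2 hp3 using hstep
  let z : ℕ → {x : Σ L : Type u, Set (Set L) × (L → Ordinal.{u}) // Good K al m M x} :=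
    fun n => Nat.rec ⟨⟨L0, J0, c0⟩, ⟨hJ0, hu0, hL0, hlg0, hM0⟩⟩ (fun _ x => f x) n
  obtain ⟨n, y, hny⟩ := h1 (fun n => (z n).1.1) (fun n => (z n).1.2.1) (fun n => (z n).1.2.2)
    (fun n => p (z n)) (fun n => (z n).2.1) (fun n l => hp1 (z n) l) (fun n X => hp2 (z n) X)
    hu0
  exact absurd (hp3 (z n) y) (not_lt.2 hny)

end Pool.Agent.Helper86.RV
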